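import Pool.Agent.Helper13.MC.MM0
import Pool.Agent.Helper57.MT.Goals

/-!
Packet MC2-MM02: the real form of the theorem on prescribed clusters, with absolute constants
(an adaptation of the proof of helper13 of `StmtMM0`).
-/

set_option autoImplicit false

open Finset Filter Topology

open scoped Classical

namespace Pool.Agent.Helper36.MT

open Pool.Agent.Helper57.MT
open Pool.Agent.Helper88.CR (Rec)
open Pool.Agent.Helper13.MC (half_log half_log' quarter_log rec_le rec_ge)

theorem mm02 (h1 : StmtFRM2) : StmtMM02 := by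
  obtain ⟨c, hc, hall⟩ := h1
  refine ⟨c / 32, by positivity, fun K hK1 => ?_⟩
  obtain ⟨x0, hx0⟩ := hall K hK1
  have hlogK : 0 ≤ Real.log K := Real.log_nonneg (by exact_mod_cast hK1)
  have ev1 : ∀ᶠ x : ℝ in atTop, ‖Real.log x ^ 2‖ ≤ 1 / 2 * ‖id x‖ :=
    (Real.isLittleO_pow_log_id_atTop (n := 2)).bound (by norm_num)
  have t2 : Tendsto (fun x : ℝ => Real.log (Real.log x)) atTop atTop :=
    Real.tendsto_log_atTop.comp Real.tendsto_log_atTop
  have t3 : Tendsto (fun x : ℝ => Real.log (Real.log (Real.log x))) atTop atTop :=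
    Real.tendsto_log_atTop.comp t2
  have t4 : Tendsto (fun x : ℝ => Real.log (Real.log (Real.log (Real.log x)))) atTop atTop :=
    Real.tendsto_log_atTop.comp t3
  have ev2 : ∀ᶠ x : ℝ in atTop, 4 + 32 / c ≤ Real.log x :=
    Real.tendsto_log_atTop.eventually_ge_atTop _
  have ev3 : ∀ᶠ x : ℝ in atTop, 4 ≤ Real.log (Real.log x) := t2.eventually_ge_atTop 4
  have ev4 : ∀ᶠ x : ℝ in atTop, 4 ≤ Real.log (Real.log (Real.log x)) := t3.eventually_ge_atTop 4
  have ev4' : ∀ᶠ x : ℝ in atTop, 1 ≤ Real.log (Real.log (Real.log (Real.log x))) :=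
    t4.eventually_ge_atTop 1
  have ev5 : ∀ᶠ x : ℝ in atTop, 2 * Real.log (Real.log x) ^ 2 ≤ 5 / 36 * Real.log x := by
    have h1 : ∀ᶠ u : ℝ in atTop, ‖Real.log u ^ 2‖ ≤ 5 / 72 * ‖id u‖ :=
      (Real.isLittleO_pow_log_id_atTop (n := 2)).bound (by norm_num)
    have h3 : ∀ᶠ u : ℝ in atTop, 2 * Real.log u ^ 2 ≤ 5 / 36 * u := by
      filter_upwards [h1, eventually_ge_atTop (1 : ℝ)] with u b1 b3
      rw [id, Real.norm_of_nonneg (by positivity), Real.norm_of_nonneg (by linarith only [b3])] at b1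
      linarith only [b1]
    exact Real.tendsto_log_atTop.eventually h3
  obtain ⟨X, hX⟩ := eventually_atTop.mp (ev1.and (ev2.and (ev3.and (ev4.and (ev4'.and ev5)))))
  refine ⟨max X (max 16 (2 * x0 + 2)), fun x hx H hHK hHc hadm => ?_⟩
  obtain ⟨e1, e2', e3, e4, e4', e5⟩ := hX x (le_trans (le_max_left _ _) hx)
  have h32 : 0 < 32 / c := by positivity
  have e2 : 4 ≤ Real.log x := by linarith only [e2', h32]
  have hx16 : 16 ≤ x := le_trans (le_trans (le_max_left _ _) (le_max_right _ _)) hx
  have hx0' : 2 * (x0 : ℝ) + 2 ≤ x := le_trans (le_trans (le_max_right _ _) (le_max_right _ _)) hx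
  rw [id, Real.norm_eq_abs, Real.norm_eq_abs, abs_of_nonneg (by positivity : 0 ≤ Real.log x ^ 2),
    abs_of_nonneg (by linarith only [hx16] : 0 ≤ x)] at e1
  set y : ℕ := ⌊x / 2⌋₊ with hy
  have y1 : (y : ℝ) ≤ x / 2 := Nat.floor_le (by linarith only [hx16])
  have y2 : x / 2 < y + 1 := Nat.lt_floor_add_one _
  have y3 : x / 4 ≤ y := by linarith only [hx16, y2]
  have y4 : x0 ≤ y := by
    have : (x0 : ℝ) ≤ y := by linarith only [hx0', y2]
    exact_mod_cast this
  obtain ⟨Y, hY1, hY2, hY3⟩ := hx0 y y4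
  have hrec : Rec x / 16 ≤ Rec y := rec_le hx16 e2 e3 e4 y3 (by linarith only [hx16, y1])
  have hrecx : Real.log x ≤ Rec x := rec_ge e2 e3 e4 e4'
  have hone : 1 ≤ c / 32 * Rec x := by
    have h5 : 32 / c ≤ Rec x := by linarith only [e2', hrecx]
    rw [div_le_iff₀ hc] at h5
    linarith only [h5]
  have hYc : c / 32 * Rec x + 1 ≤ Y := by
    have h5 : c / 32 * Rec x + c / 32 * Rec x = c * (Rec x / 16) := by ring
    have h6 : c * (Rec x / 16) ≤ c * Rec y := mul_le_mul_of_nonneg_left hrec hc.le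
    linarith only [hY1, hone, h6]
  have ly1 : Real.log (x / 4) ≤ Real.log y := Real.log_le_log (by linarith only [hx16]) y3
  have ly2 : Real.log y ≤ Real.log x := Real.log_le_log (by linarith only [hx16, y2]) (by linarith only [hx16, y1])
  have l1' : Real.log x / 2 ≤ Real.log y := (quarter_log hx16).trans ly1
  have l2' : 3 / 4 * Real.log (Real.log x) ≤ Real.log (Real.log y) := by
    have h5 : 16 ≤ Real.log x := by
      have h6 : Real.log (Real.log x) ≤ Real.log x / 4 + (Real.log 4 - 1) := by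
        have h7 := Real.log_le_sub_one_of_pos (show 0 < Real.log x / 4 by linarith only [e2', h32])
        rw [Real.log_div (by linarith only [e2', h32]) (by norm_num)] at h7
        linarith only [h7]
      have h8 : Real.log 4 = 2 * Real.log 2 := by
        rw [show (4 : ℝ) = 2 ^ 2 by norm_num, Real.log_pow]
        norm_num
      have h9 := Real.log_two_lt_d9
      by_contra h10
      push Not at h10
      have h11 : Real.log (Real.log x) < 4 := by
        have h12 : Real.log (Real.log x) ≤ Real.log 16 :=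
          Real.log_le_log (by linarith only [e2', h32]) h10.le
        have h13 : Real.log 16 = 4 * Real.log 2 := by
          rw [show (16 : ℝ) = 2 ^ 4 by norm_num, Real.log_pow]
          norm_num
        linarith only [e3, h9, h12, h13]
      linarith only [e3, h11]
    exact (half_log' h5).trans (Real.log_le_log (by linarith only [h5]) l1')
  have hYl : (Y : ℝ) ≤ Real.log x ^ 2 := by
    refine hY2.trans (pow_le_pow_left₀ ?_ ly2 2)
    linarith only [e2', h32, l1']
  -- the shifted set
  set H' : Finset ℕ := H.image (fun h => h + 1) with hH'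
  have hinj : Function.Injective (fun h : ℕ => h + 1) := fun a b hab => by
    simpa using hab
  have hsub : H' ⊆ Icc 1 Y := by
    intro h hh
    obtain ⟨a, ha, rfl⟩ := Finset.mem_image.1 hh
    rw [Finset.mem_Icc]
    refine ⟨by omega, ?_⟩
    have h5 := hHc a ha
    have h6 : ((a + 1 : ℕ) : ℝ) ≤ Y := by
      push_cast
      linarith only [hYc, h5]
    exact_mod_cast h6
  have hcard : H'.card = K := by
    rw [hH', Finset.card_image_of_injective _ hinj, hHK]
  have hadm' : ∀ l : ℕ, l.Prime → ∃ a : ℕ, ∀ h ∈ H', ¬ h ≡ a [MOD l] := by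
    intro l hl
    obtain ⟨a, ha⟩ := hadm l hl
    refine ⟨a + 1, fun h hh => ?_⟩
    obtain ⟨b, hb, rfl⟩ := Finset.mem_image.1 hh
    intro h5
    exact ha b hb (Nat.ModEq.add_right_cancel' 1 h5)
  obtain ⟨N, hN1, hN2⟩ := hY3 H' hsub hcard hadm'
  -- the set of the statement
  set T : Set ℕ := {m : ℕ | (m : ℝ) + c / 32 * Rec x ≤ x ∧
        (∀ q : ℕ, q.Prime → m ≤ q → (q : ℝ) ≤ m + c / 32 * Rec x → ∃ h ∈ H, q = m + h) ∧
        c / 32 * Real.log K < ((H.filter (fun h => (m + h).Prime)).card : ℝ)} with hT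
  have hmem : ∀ n ∈ N, n + 1 ∈ T := by
    intro n hn
    obtain ⟨b1, b2, b3⟩ := hN1 n hn
    refine ⟨?_, fun q hq hnq hqn => ?_, ?_⟩
    · have c1 : (n : ℝ) ≤ y := by exact_mod_cast b1
      push_cast
      linarith only [e1, y1, hYc, hYl, c1]
    · obtain ⟨h, rfl⟩ : ∃ h, q = n + h := ⟨q - n, by omega⟩
      have c1 : h ∈ Icc 1 Y := by
        rw [Finset.mem_Icc]
        refine ⟨by omega, ?_⟩
        have c2 : (h : ℝ) ≤ Y := by
          push_cast at hqn
          linarith only [hYc, hqn]
        exact_mod_cast c2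
      have c3 := b2 h c1 hq
      obtain ⟨a, ha, rfl⟩ := Finset.mem_image.1 c3
      exact ⟨a, ha, by omega⟩
    · have c0 : c / 32 * Real.log K ≤ c * Real.log K :=
        mul_le_mul_of_nonneg_right (by linarith only [hc]) hlogK
      refine lt_of_le_of_lt c0 (lt_of_lt_of_le b3 ?_)
      have c1 : H'.filter (fun h => (n + h).Prime) ⊆
          (H.filter (fun h => (n + 1 + h).Prime)).image (fun h => h + 1) := by
        intro h hh
        rw [Finset.mem_filter] at hh
        obtain ⟨a, ha, rfl⟩ := Finset.mem_image.1 hh.1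
        rw [Finset.mem_image]
        refine ⟨a, ?_, rfl⟩
        rw [Finset.mem_filter]
        refine ⟨ha, ?_⟩
        have c2 := hh.2
        rwa [show n + (a + 1) = n + 1 + a by ring] at c2
      exact_mod_cast (Finset.card_le_card c1).trans Finset.card_image_le
  have hfin : T.Finite := by
    refine (Set.finite_Iic ⌊x⌋₊).subset ?_
    intro m hm
    rw [Set.mem_Iic]
    apply Nat.le_floor
    have h5 := hm.1
    linarith only [hone, h5]
  have hNT : (N.card : ℝ) ≤ T.ncard := by
    have h5 : ((N.image (fun n => n + 1) : Finset ℕ) : Set ℕ) ⊆ T := by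
      intro s hs
      rw [Finset.mem_coe, Finset.mem_image] at hs
      obtain ⟨n, hn, rfl⟩ := hs
      exact hmem n hn
    have h6 := Set.ncard_le_ncard h5 hfin
    rw [Set.ncard_coe_finset, Finset.card_image_of_injective _ hinj] at h6
    exact_mod_cast h6
  refine le_trans ?_ hNT
  refine le_trans ?_ hN2
  -- the size
  set l1 := Real.log x with hl1
  set l2 := Real.log l1 with hl2
  have hxpos : 0 < x := by linarith only [hx16]
  have hl10 : 0 < l1 := by linarith only [h32, e2']
  have hl20 : 0 < l2 := by linarith only [e3]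
  have hy0 : (0 : ℝ) < y := by linarith only [hx16, y2]
  have hexp : Real.log y / (16 * Real.log (Real.log y) ^ 2) ≤ l1 / (9 * l2 ^ 2) := by
    have h5 : 9 * l2 ^ 2 ≤ 16 * Real.log (Real.log y) ^ 2 := by
      have h6 : (3 / 4 * l2) ^ 2 ≤ Real.log (Real.log y) ^ 2 :=
        pow_le_pow_left₀ (by linarith only [e3]) l2' 2
      have h7 : (3 / 4 * l2) ^ 2 = 9 / 16 * l2 ^ 2 := by ring
      rw [h7] at h6
      linarith only [h6]
    exact div_le_div₀ hl10.le ly2 (by positivity) h5
  have h5 : x ^ (1 - 1 / (4 * l2 ^ 2)) = x * Real.exp (-(l1 / (4 * l2 ^ 2))) := by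
    have h51 : Real.exp l1 = x := Real.exp_log hxpos
    rw [Real.rpow_def_of_pos hxpos]
    calc Real.exp (Real.log x * (1 - 1 / (4 * l2 ^ 2)))
        = Real.exp (l1 + -(l1 / (4 * l2 ^ 2))) := by
          congr 1
          rw [← hl1]
          ring
      _ = x * Real.exp (-(l1 / (4 * l2 ^ 2))) := by rw [Real.exp_add, h51]
  have h7 : (4 : ℝ) ≤ Real.exp 2 := by
    have h8 : Real.exp 2 = Real.exp 1 * Real.exp 1 := by
      rw [← Real.exp_add]
      norm_num
    have := Real.exp_one_gt_d9
    rw [h8]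
    nlinarith only [this]
  have h8 : 2 + -(l1 / (4 * l2 ^ 2)) ≤ -(l1 / (9 * l2 ^ 2)) := by
    have h9 : l1 / (4 * l2 ^ 2) = l1 / l2 ^ 2 * (1 / 4) := by field_simp
    have h9' : l1 / (9 * l2 ^ 2) = l1 / l2 ^ 2 * (1 / 9) := by field_simp
    have h10 : 2 ≤ 5 / 36 * (l1 / l2 ^ 2) := by
      rw [← mul_div_assoc, le_div_iff₀ (by positivity)]
      exact e5
    rw [h9, h9']
    linarith only [h10]
  calc x ^ (1 - 1 / (4 * l2 ^ 2))
      = x / 4 * (4 * Real.exp (-(l1 / (4 * l2 ^ 2)))) := by
        rw [h5]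
        ring
    _ ≤ x / 4 * (Real.exp 2 * Real.exp (-(l1 / (4 * l2 ^ 2)))) := by
        gcongr
    _ = x / 4 * Real.exp (2 + -(l1 / (4 * l2 ^ 2))) := by
        rw [← Real.exp_add]
    _ ≤ y * Real.exp (-(Real.log y / (16 * Real.log (Real.log y) ^ 2))) := by
        apply mul_le_mul y3 _ (Real.exp_pos _).le hy0.le
        apply Real.exp_le_exp.2
        linarith only [hexp, h8]

end Pool.Agent.Helper36.MT
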